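import Pool.Agent.KS6_53.El.E5

/-!
# Diameter-preserving maps of real, complex and quaternionic elliptic spaces, and of their open subsets

`K` is the field of real or of complex numbers or the division ring of quaternions, `d` its dimension
over `ℝ` (`1`, `2`, `4`), and `n ≥ 2`. The elliptic space over `K` is the projective space `ℙ(Kⁿ)` with
the distance `ell p q`, the angle in `[0, π / 2]` with cosine `|x · y| / (|x| |y|)`, where `x`, `y` span
`p`, `q` and `x · y = ∑ x i * star (y i)`. For `K = ℝ` this is the smallest angle between two lines. The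
diameter is `π / 2`, attained exactly by the pairs of orthogonal points.

Let `U` be an open subset of the elliptic space, `φ` a continuous map of `U` to `ℝᵐ` which preserves the set
of diameters: `φ(U)` is bounded, and for `p`, `q` in `U` the distance of `φ(p)`, `φ(q)` is the diameter of
`φ(U)` if and only if `p` and `q` are orthogonal.

* If `U` contains `k ≥ 2` pairwise orthogonal points, then `m ≥ k - 1 + d (k n - k (k + 1) / 2)`.
* If `U` contains `n` pairwise orthogonal points (for instance if `U` is the whole space, or the union of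
  arbitrarily small neighbourhoods of `n` pairwise orthogonal points), then the least possible `m` is exactly
  `n - 1 + d n (n - 1) / 2`.

For `K = ℝ` and the whole space the least `m` is `M(n) = n (n + 1) / 2 - 1`, and `M(n) / n² → 1 / 2`.

Idea of the proof. Let `e₁, …, e_k` be pairwise orthogonal points of `U`. The map is injective near `e_j`,
because a point `a` close to `e_j` is determined by the points of `U` orthogonal to it. Let `S_j` be the
space spanned by the differences of the images of `e₁, …, e_j` and of the points of `U` orthogonal to them.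
Limits of secants of `φ` at `e_{j+1}` are orthogonal to `S_{j+1}` (compare the distances to points orthogonal
to one end of the secant); so in the orthogonal complement of `S_{j+1}` in `S_j` the map is, at small scales,
an injective image of a `d (n - j - 1)`-dimensional cube, and by the invariance of the dimension
`dim S_j ≥ dim S_{j+1} + d (n - j - 1)`. For the last space one has the simplex on `φ(e₁), …, φ(e_k)`. The
equality is attained by the map to the hermitian matrices of trace `0` (projections on lines).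
-/

set_option autoImplicit false

namespace Pool.Agent.Results.MP_cd78f9_gt.LocalDimension

open scoped LinearAlgebra.Projectivization Quaternion

variable {K : Type} [NormedDivisionRing K] [StarRing K] {n m : ℕ}

/-- The product `x · y` of two vectors. -/
noncomputable def herm (x y : Fin n → K) : K := ∑ i, x i * star (y i)

/-- The Euclidean norm of a vector. -/
noncomputable def len (x : Fin n → K) : ℝ := Real.sqrt (∑ i, ‖x i‖ ^ 2)

/-- The distance of elliptic space. -/
noncomputable def ell (p q : ℙ K (Fin n → K)) : ℝ :=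
  Real.arccos (‖herm p.rep q.rep‖ / (len p.rep * len q.rep))

/-- `U` is an open subset of elliptic space. -/
def IsOpenSubset (U : Set (ℙ K (Fin n → K))) : Prop :=
  ∀ p ∈ U, ∃ ε > 0, ∀ q, ell p q < ε → q ∈ U

/-- `U` contains `k` pairwise orthogonal points. -/
def HasOrthogonal (U : Set (ℙ K (Fin n → K))) (k : ℕ) : Prop :=
  ∃ g : Fin k → ℙ K (Fin n → K), (∀ i, g i ∈ U) ∧ ∀ i l, i ≠ l → ell (g i) (g l) = Real.pi / 2

/-- `φ` is continuous on `U`. -/
def IsContinuousOn (φ : ℙ K (Fin n → K) → EuclideanSpace ℝ (Fin m)) (U : Set (ℙ K (Fin n → K))) :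
    Prop :=
  ∀ p ∈ U, ∀ ε > 0, ∃ δ > 0, ∀ q ∈ U, ell p q < δ → dist (φ p) (φ q) < ε

/-- `φ` preserves the set of diameters of `U`: `φ(U)` is bounded, and for `p`, `q` in `U` the points
`φ p`, `φ q` are a diameter of `φ(U)` if and only if `p`, `q` are orthogonal. -/
def PreservesDiameters (φ : ℙ K (Fin n → K) → EuclideanSpace ℝ (Fin m))
    (U : Set (ℙ K (Fin n → K))) : Prop :=
  Bornology.IsBounded (φ '' U) ∧
    ∀ p ∈ U, ∀ q ∈ U, (dist (φ p) (φ q) = Metric.diam (φ '' U) ↔ ell p q = Real.pi / 2)

/-- The dimensions `m` for which there is a continuous map of `U` to `ℝᵐ` that preserves the set of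
diameters. -/
def dims (U : Set (ℙ K (Fin n → K))) : Set ℕ :=
  {m | ∃ φ : ℙ K (Fin n → K) → EuclideanSpace ℝ (Fin m), IsContinuousOn φ U ∧ PreservesDiameters φ U}

/-- The theorem for `K`, with `d` the dimension of `K` over the real numbers. -/
def Dimensions (K : Type) [NormedDivisionRing K] [StarRing K] (d : ℕ) : Prop :=
  ∀ n : ℕ, 2 ≤ n → ∀ U : Set (ℙ K (Fin n → K)), IsOpenSubset U →
    (∀ k : ℕ, 2 ≤ k → k ≤ n → HasOrthogonal U k →
      ∀ m ∈ dims U, k - 1 + d * (k * n - k * (k + 1) / 2) ≤ m) ∧
    (HasOrthogonal U n → IsLeast (dims U) (n - 1 + d * (n * (n - 1) / 2)))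

/-- The number `M(n)` of the problem. -/
noncomputable def M (n : ℕ) : ℕ := sInf (dims (Set.univ : Set (ℙ ℝ (Fin n → ℝ))))

open Pool.Agent.KS6_53 in
theorem dimensions_of (K : Type) [NormedDivisionRing K] [NormedAlgebra ℝ K] [StarRing K]
    [El.Conj K] [FiniteDimensional ℝ K] (d : ℕ) (hd : Module.finrank ℝ K = d) : Dimensions K d := by
  intro n hn U hU
  constructor
  · rintro k hk hkn ⟨g, hg, hgo⟩ m ⟨φ, hc, hp⟩
    have h := El.lower_proj (K := K) hk hkn hU g hg hgo hc hp
    rwa [El.sum_closed n k hkn, hd, mul_comm] at h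
  · rintro ⟨g, hg, hgo⟩
    have h := El.isLeast (K := K) hn hU g hg hgo
    rw [El.sum_closed n n le_rfl, hd, mul_comm] at h
    have e : n * n - n * (n + 1) / 2 = n * (n - 1) / 2 := by
      obtain ⟨c, hc⟩ : 2 ∣ n * (n + 1) := (Nat.even_mul_succ_self n).two_dvd
      obtain ⟨t, rfl⟩ : ∃ t, n = t + 1 := ⟨n - 1, by omega⟩
      obtain ⟨c', hc'⟩ : 2 ∣ (t + 1) * (t + 1 - 1) := by
        rw [Nat.add_sub_cancel, mul_comm]
        exact (Nat.even_mul_succ_self t).two_dvd
      rw [hc, hc', Nat.mul_div_cancel_left _ two_pos, Nat.mul_div_cancel_left _ two_pos]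
      rw [Nat.add_sub_cancel] at hc'
      nlinarith [Nat.sub_add_cancel (show c ≤ (t + 1) * (t + 1) by nlinarith)]
    rw [e] at h
    exact h

theorem univ_open (K : Type) [NormedDivisionRing K] [StarRing K] (n : ℕ) :
    IsOpenSubset (Set.univ : Set (ℙ K (Fin n → K))) :=
  fun _ _ => ⟨1, one_pos, fun _ _ => trivial⟩

theorem M_eq (n : ℕ) (hn : 2 ≤ n) : M n = n * (n + 1) / 2 - 1 := by
  have h := ((dimensions_of ℝ 1 (Module.finrank_self ℝ)) n hn Set.univ (univ_open ℝ n)).2
  obtain ⟨g, hg⟩ := Pool.Agent.KS6_53.El.exists_std (K := ℝ) (n := n) (by omega)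
  have h2 := (h ⟨g, fun _ => trivial, hg⟩).csInf_eq
  show sInf _ = _
  rw [h2, one_mul]
  obtain ⟨t, rfl⟩ : ∃ t, n = t + 1 := ⟨n - 1, by omega⟩
  obtain ⟨c, hc⟩ : 2 ∣ t * (t + 1) := (Nat.even_mul_succ_self t).two_dvd
  have e1 : (t + 1) * (t + 1 - 1) = 2 * c := by rw [Nat.add_sub_cancel, mul_comm]; exact hc
  have e2 : (t + 1) * (t + 1 + 1) = 2 * (c + t + 1) := by nlinarith
  rw [e1, e2, Nat.mul_div_cancel_left _ two_pos, Nat.mul_div_cancel_left _ two_pos]
  omega

open Filter Topology in
theorem M_lim : Tendsto (fun n : ℕ => (M n : ℝ) / (n : ℝ) ^ 2) atTop (𝓝 (1 / 2)) := by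
  have h1 : Tendsto (fun n : ℕ => 1 / 2 + (1 / 2) * (1 / (n : ℝ)) - (1 / (n : ℝ)) ^ 2) atTop
      (𝓝 (1 / 2 + (1 / 2) * 0 - 0 ^ 2)) := by
    have h0 : Tendsto (fun n : ℕ => 1 / (n : ℝ)) atTop (𝓝 0) := tendsto_one_div_atTop_nhds_zero_nat
    exact (tendsto_const_nhds.add (h0.const_mul _)).sub (h0.pow 2)
  have h2 : (1 / 2 + (1 / 2) * 0 - 0 ^ 2 : ℝ) = 1 / 2 := by norm_num
  rw [h2] at h1
  apply h1.congr'
  filter_upwards [eventually_ge_atTop 2] with n hn
  rw [M_eq n hn]
  have h3 : 2 ∣ n * (n + 1) := (Nat.even_mul_succ_self n).two_dvd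
  have h4 : 1 ≤ n * (n + 1) / 2 := by
    rw [Nat.le_div_iff_mul_le two_pos]
    nlinarith
  rw [Nat.cast_sub h4, Nat.cast_div h3 (by norm_num)]
  push_cast
  have : (n : ℝ) ≠ 0 := by positivity
  field_simp

/-- **Continuous maps of elliptic spaces and of their open subsets which preserve the set of diameters.**
For `K = ℝ`, `ℂ` and the quaternions, every `n ≥ 2` and every open subset `U` of the elliptic space
`ℙ(Kⁿ)`: if `U` contains `k ≥ 2` pairwise orthogonal points, the dimension `m` of the target is at least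
`k - 1 + d (k n - k (k + 1) / 2)`; if `U` contains `n` pairwise orthogonal points, the least possible `m`
is `n - 1 + d n (n - 1) / 2`. In particular `M(n) = n (n + 1) / 2 - 1`, and `M(n) / n²` tends to `1 / 2`,
not to `0`. -/
theorem result :
    Dimensions ℝ 1 ∧ Dimensions ℂ 2 ∧ Dimensions ℍ[ℝ] 4 ∧
    (∀ n : ℕ, 2 ≤ n → M n = n * (n + 1) / 2 - 1) ∧
    Filter.Tendsto (fun n : ℕ => (M n : ℝ) / (n : ℝ) ^ 2) Filter.atTop (nhds (1 / 2)) ∧
    ¬ Filter.Tendsto (fun n : ℕ => (M n : ℝ) / (n : ℝ) ^ 2) Filter.atTop (nhds 0) := by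
  refine ⟨dimensions_of ℝ 1 (Module.finrank_self ℝ), dimensions_of ℂ 2 Complex.finrank_real_complex,
    dimensions_of ℍ[ℝ] 4 Quaternion.finrank_eq_four, M_eq, M_lim, fun h => ?_⟩
  have := tendsto_nhds_unique M_lim h
  norm_num at this

end Pool.Agent.Results.MP_cd78f9_gt.LocalDimension
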